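import Mathlib
import Pool.Agent.V1140.ML.Lat

/-!
MP_62b2e8_nt, Q1 (proved): if `n ≥ m ≥ 1` and there is a matrix lattice of rank `2mn` in `M_n(ℂ)`
with `Δ_m ≠ 0`, then `m = n` or `(n, m) = (2, 1)`.
-/

set_option autoImplicit false

namespace Pool.Agent.Results.MP_62b2e8_nt.OnlyAlamouti

open Module Pool.Agent.V1140.ML

/-- `Δ_s(X)`: the product of the squares of the `s` smallest singular values of the complex
`n × n` matrix `X` (`s ≤ n`).  Mathlib's `singularValues` lists the singular values of the linear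
map `ℂⁿ → ℂⁿ`, `v ↦ X v` (Euclidean norms) in decreasing order, starting with index `0`, so that
the `s` smallest ones are those with index `n - 1, n - 2, …, n - s`. -/
noncomputable def Delta {n : ℕ} (s : ℕ) (X : Matrix (Fin n) (Fin n) ℂ) : ℝ :=
  ∏ i ∈ Finset.range s, ((Matrix.toEuclideanLin X).singularValues (n - 1 - i)) ^ 2

/-- `Δ_s(L) = inf {Δ_s(X) : X ∈ L, X ≠ 0}`. -/
noncomputable def DeltaInf {n : ℕ} (s : ℕ) (L : Set (Matrix (Fin n) (Fin n) ℂ)) : ℝ :=
  sInf (Delta s '' {X | X ∈ L ∧ X ≠ 0})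

theorem Delta_nonneg {n : ℕ} (s : ℕ) (X : Matrix (Fin n) (Fin n) ℂ) : 0 ≤ Delta s X := by
  unfold Delta
  apply Finset.prod_nonneg
  intro i _
  positivity

theorem aux (n m N : ℕ) (hN : N = 2 * m * n) (hm : 1 ≤ m) (hmn : m ≤ n)
    (B : Fin N → Matrix (Fin n) (Fin n) ℂ) (hB : LinearIndependent ℝ B)
    (hD : DeltaInf m (Submodule.span ℤ (Set.range B) : Set (Matrix (Fin n) (Fin n) ℂ)) ≠ 0) :
    m = n ∨ (n = 2 ∧ m = 1) := by
  by_contra hcon
  have hlt : m < n := by omega
  have hn3 : 3 ≤ n := by omega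
  apply hD
  -- a nonzero matrix of the real span with a kernel of dimension at least `m`
  let V : Submodule ℝ (Matrix (Fin n) (Fin n) ℂ) := Submodule.span ℝ (Set.range B)
  have hV : finrank ℝ V = 2 * m * n := by
    have := finrank_span_eq_card hB
    rw [← hN]
    simpa using this
  obtain ⟨X0, hX0V, hX00, hnul⟩ := exists_big_kernel hm hlt hn3 V hV
  obtain ⟨c, hc⟩ := (Submodule.mem_span_range_iff_exists_fun ℝ).mp hX0V
  obtain ⟨i0, hi0⟩ : ∃ i, c i ≠ 0 := by
    by_contra h
    push Not at h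
    apply hX00
    rw [← hc]
    simp [h]
  -- an operator norm bound for the basis
  let T : Matrix (Fin n) (Fin n) ℂ → (EuclideanSpace ℂ (Fin n) →ₗ[ℂ] EuclideanSpace ℂ (Fin n)) :=
    fun X => Matrix.toEuclideanLin X
  obtain ⟨C, hC0, hC⟩ : ∃ C : ℝ, 0 ≤ C ∧ ∀ i v, ‖T (B i) v‖ ≤ C * ‖v‖ := by
    refine ⟨∑ i, ‖LinearMap.toContinuousLinearMap (T (B i))‖, by positivity, ?_⟩
    intro i v
    have h1 := (LinearMap.toContinuousLinearMap (T (B i))).le_opNorm v
    refine h1.trans ?_
    apply mul_le_mul_of_nonneg_right _ (norm_nonneg _)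
    exact Finset.single_le_sum (f := fun i => ‖LinearMap.toContinuousLinearMap (T (B i))‖)
      (fun _ _ => norm_nonneg _) (Finset.mem_univ i)
  -- the infimum is at most `ε ^ (2m)` for all `ε ∈ (0, 1)`
  have hbelow : BddBelow (Delta m '' {X | X ∈ (Submodule.span ℤ (Set.range B) :
      Set (Matrix (Fin n) (Fin n) ℂ)) ∧ X ≠ 0}) := by
    refine ⟨0, ?_⟩
    rintro _ ⟨X, _, rfl⟩
    exact Delta_nonneg m X
  have hsmall : ∀ ε : ℝ, 0 < ε → ε < 1 →
      DeltaInf m (Submodule.span ℤ (Set.range B) : Set (Matrix (Fin n) (Fin n) ℂ)) ≤ ε := by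
    intro ε hε hε1
    set δ : ℝ := min (|c i0|) (ε / (N * C + 1)) with hδ
    have hδpos : 0 < δ := by
      apply lt_min (abs_pos.mpr hi0)
      positivity
    obtain ⟨q, hq, p, hp⟩ := dirichlet N c δ hδpos
    let X : Matrix (Fin n) (Fin n) ℂ := ∑ i, p i • B i
    have hXmem : X ∈ Submodule.span ℤ (Set.range B) :=
      Submodule.sum_mem _ fun i _ => Submodule.smul_mem _ _ (Submodule.subset_span ⟨i, rfl⟩)
    have hX0 : X ≠ 0 := by
      intro h
      have h1 : ∑ i, (p i : ℝ) • B i = 0 := by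
        rw [← h]
        refine Finset.sum_congr rfl fun i _ => ?_
        exact Int.cast_smul_eq_zsmul ℝ (p i) (B i)
      have h2 := Fintype.linearIndependent_iff.mp hB (fun i => (p i : ℝ)) h1 i0
      have h3 := hp i0
      rw [h2, sub_zero, abs_mul] at h3
      have h4 : (1:ℝ) ≤ |(q:ℝ)| := by
        rw [abs_of_nonneg (by positivity)]
        exact_mod_cast hq
      have h5 : δ ≤ |c i0| := min_le_left _ _
      nlinarith [abs_nonneg (c i0)]
    -- the difference to `q X0` is small
    have hdiff : ∀ v, ‖T X v - T ((q : ℝ) • X0) v‖ ≤ ε * ‖v‖ := by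
      intro v
      have h1 : X - (q : ℝ) • X0 = ∑ i, ((p i : ℝ) - q * c i) • B i := by
        rw [← hc, Finset.smul_sum, ← Finset.sum_sub_distrib]
        refine Finset.sum_congr rfl fun i _ => ?_
        rw [sub_smul, mul_smul, Int.cast_smul_eq_zsmul ℝ (p i) (B i)]
      have h2 : T X v - T ((q : ℝ) • X0) v = ∑ i, (((p i : ℝ) - q * c i : ℝ) : ℂ) • T (B i) v := by
        have h3 : T X v - T ((q : ℝ) • X0) v = T (X - (q : ℝ) • X0) v := by
          simp only [T, map_sub, LinearMap.sub_apply]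
        rw [h3, h1]
        simp only [T]
        have h4 : ∀ (r : ℝ) (Y : Matrix (Fin n) (Fin n) ℂ), r • Y = (r : ℂ) • Y := by
          intro r Y
          ext a b
          simp
        simp only [h4, map_sum, map_smul, LinearMap.sum_apply, LinearMap.smul_apply]
      rw [h2]
      refine (norm_sum_le _ _).trans ?_
      have h5 : ∀ i ∈ (Finset.univ : Finset (Fin N)),
          ‖(((p i : ℝ) - q * c i : ℝ) : ℂ) • T (B i) v‖ ≤ δ * (C * ‖v‖) := by
        intro i _
        rw [norm_smul, Complex.norm_real, Real.norm_eq_abs, abs_sub_comm]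
        exact mul_le_mul (hp i).le (hC i v) (norm_nonneg _) hδpos.le
      refine (Finset.sum_le_sum h5).trans ?_
      rw [Finset.sum_const, Finset.card_univ, Fintype.card_fin, nsmul_eq_mul]
      have h6 : δ ≤ ε / (N * C + 1) := min_le_right _ _
      have h7 : (N:ℝ) * C * δ ≤ ε := by
        have h8 : (0:ℝ) ≤ N * C := by positivity
        have h9 : (0:ℝ) < N * C + 1 := by positivity
        rw [le_div_iff₀ h9] at h6
        nlinarith
      calc (N:ℝ) * (δ * (C * ‖v‖)) = ((N:ℝ) * C * δ) * ‖v‖ := by ring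
        _ ≤ ε * ‖v‖ := mul_le_mul_of_nonneg_right h7 (norm_nonneg _)
    -- the kernel of `X0`
    let K : Submodule ℂ (EuclideanSpace ℂ (Fin n)) := LinearMap.ker (T X0)
    have hK : m ≤ finrank ℂ K := by
      have h1 : nul X0 = finrank ℂ K := by
        unfold nul
        let e : (Fin n → ℂ) ≃ₗ[ℂ] EuclideanSpace ℂ (Fin n) := (WithLp.linearEquiv 2 ℂ (Fin n → ℂ)).symm
        have h2 : LinearMap.ker (Matrix.mulVecLin X0) = K.comap e.toLinearMap := by
          ext v
          simp only [LinearMap.mem_ker, Submodule.mem_comap, K, T]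
          constructor
          · intro h
            rw [Matrix.mulVecLin_apply] at h
            show (Matrix.toEuclideanLin X0) (WithLp.toLp 2 v) = 0
            rw [Matrix.toEuclideanLin_toLp, Matrix.toLin'_apply, h]
            rfl
          · intro h
            have h' : (Matrix.toEuclideanLin X0) (WithLp.toLp 2 v) = 0 := h
            rw [Matrix.toEuclideanLin_toLp, Matrix.toLin'_apply] at h'
            have h3 := congrArg WithLp.ofLp h'
            rw [Matrix.mulVecLin_apply]
            exact h3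
        rw [h2]
        exact (LinearEquiv.ofSubmodule' e K).finrank_eq
      rw [← h1]; exact hnul
    have hXK : ∀ v ∈ K, ‖T X v‖ ≤ ε * ‖v‖ := by
      intro v hv
      have h1 := hdiff v
      have h2 : T ((q : ℝ) • X0) v = 0 := by
        have h3 : (q : ℝ) • X0 = ((q : ℝ) : ℂ) • X0 := by
          ext a b
          simp
        rw [h3]
        simp only [T, map_smul, LinearMap.smul_apply]
        have h4 : (Matrix.toEuclideanLin X0) v = 0 := hv
        rw [h4, smul_zero]
      rw [h2, sub_zero] at h1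
      exact h1
    have hsv : ∀ i ∈ Finset.range m, ((T X).singularValues (n - 1 - i)) ^ 2 ≤ ε ^ 2 := by
      intro i hi
      rw [Finset.mem_range] at hi
      have h1 := sv_le (T X) K hK ε hε.le hXK (n - 1 - i) (by omega) (by omega)
      exact pow_le_pow_left₀ ((T X).singularValues_nonneg _) h1 2
    have hDelta : Delta m X ≤ ε := by
      calc Delta m X ≤ ∏ i ∈ Finset.range m, ε ^ 2 :=
            Finset.prod_le_prod (fun i _ => by positivity) hsv
        _ = (ε ^ 2) ^ m := by rw [Finset.prod_const, Finset.card_range]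
        _ = ε ^ (2 * m) := by rw [← pow_mul]
        _ ≤ ε ^ 1 := pow_le_pow_of_le_one hε.le hε1.le (by omega)
        _ = ε := pow_one ε
    exact (csInf_le hbelow ⟨X, ⟨hXmem, hX0⟩, rfl⟩).trans hDelta
  have hge : 0 ≤ DeltaInf m (Submodule.span ℤ (Set.range B) : Set (Matrix (Fin n) (Fin n) ℂ)) := by
    apply Real.sInf_nonneg
    rintro _ ⟨X, _, rfl⟩
    exact Delta_nonneg m X
  apply le_antisymm _ hge
  by_contra h
  push Not at h
  set D := DeltaInf m (Submodule.span ℤ (Set.range B) : Set (Matrix (Fin n) (Fin n) ℂ)) with hDdef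
  have h1 := hsmall (min (D / 2) (1 / 2)) (by positivity) (by
    exact lt_of_le_of_lt (min_le_right _ _) (by norm_num))
  have h2 : min (D / 2) (1 / 2) ≤ D / 2 := min_le_left _ _
  linarith

/-- If `n ≥ m ≥ 1` and some lattice `L = ℤB_1 ⊕ ⋯ ⊕ ℤB_{2mn}` in `M_n(ℂ)` (the `B_i` linearly
independent over `ℝ`) has `Δ_m(L) ≠ 0`, then `m = n` or `(n, m) = (2, 1)`. -/
theorem result : ∀ n m : ℕ, 1 ≤ m → m ≤ n →
    ∀ B : Fin (2 * m * n) → Matrix (Fin n) (Fin n) ℂ, LinearIndependent ℝ B →
      DeltaInf m (Submodule.span ℤ (Set.range B) : Set (Matrix (Fin n) (Fin n) ℂ)) ≠ 0 →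
      m = n ∨ (n = 2 ∧ m = 1) :=
  fun n m hm hmn B hB hD => aux n m _ rfl hm hmn B hB hD

end Pool.Agent.Results.MP_62b2e8_nt.OnlyAlamouti
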